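import Pool.Agent.W854.HW.Stmts

set_option autoImplicit false

/-! Project HW, task HW-GEOM: deterministic geometry of gaps. -/

open MeasureTheory Set

namespace Pool.Agent.W742.HW

open Pool.Agent.W854.HW

theorem mem_cuts {n : ℕ} (y : Fin n → ℝ) (a b : Fin n) (z : ℝ) :
    z ∈ cuts y a b ↔ (∃ i, y i = z) ∧ y a ≤ z ∧ z < y b := by
  simp [cuts]

theorem mn_spec {n : ℕ} (S : Finset (Fin n)) (hS : S.Nonempty) (w : Fin n → ℝ) :
    (∀ i ∈ S, mn S w ≤ w i) ∧ ∃ i ∈ S, w i = mn S w := by
  unfold mn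
  rw [dif_pos hS]
  refine ⟨fun i hi => Finset.inf'_le _ hi, ?_⟩
  obtain ⟨i, hi, h⟩ := Finset.exists_mem_eq_inf' hS w
  exact ⟨i, hi, h.symm⟩

theorem mx_spec {n : ℕ} (S : Finset (Fin n)) (hS : S.Nonempty) (w : Fin n → ℝ) :
    ∀ i ∈ S, w i ≤ mx S w := by
  unfold mx
  rw [dif_pos hS]
  exact fun i hi => Finset.le_sup' _ hi

theorem tel {n : ℕ} (y : Fin n → ℝ) (b : Fin n) : ∀ (m : ℕ) (a : Fin n), y a < y b →
    (cuts y a b).card = m → (∑ z ∈ cuts y a b, (mn (upper y z) y - z)) = y b - y a := by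
  intro m
  induction m using Nat.strong_induction_on with
  | _ m ih =>
    intro a hab hm
    have hne : (upper y (y a)).Nonempty := ⟨b, by simp [upper, hab]⟩
    obtain ⟨h1, a', ha', h2⟩ := mn_spec (upper y (y a)) hne y
    have ha'' : y a < y a' := by simpa [upper] using ha'
    have hb' : y a' ≤ y b := by
      rw [h2]
      exact h1 b (by simp [upper, hab])
    have hcuts : cuts y a b = insert (y a) (cuts y a' b) := by
      ext z
      rw [Finset.mem_insert, mem_cuts, mem_cuts]
      constructor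
      · rintro ⟨⟨i, hi⟩, h3, h4⟩
        rcases h3.lt_or_eq with h5 | h5
        · right
          refine ⟨⟨i, hi⟩, ?_, h4⟩
          rw [h2, ← hi]
          exact h1 i (by simp [upper, hi, h5])
        · left
          exact h5.symm
      · rintro (h | ⟨⟨i, hi⟩, h3, h4⟩)
        · exact ⟨⟨a, h.symm⟩, h.ge, by rw [h]; exact hab⟩
        · exact ⟨⟨i, hi⟩, ha''.le.trans h3, h4⟩
    have hnot : y a ∉ cuts y a' b := by
      rw [mem_cuts]
      rintro ⟨-, h3, -⟩
      exact absurd h3 (not_le.2 ha'')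
    rw [hcuts, Finset.sum_insert hnot, ← h2]
    rcases hb'.lt_or_eq with h3 | h3
    · rw [ih (cuts y a' b).card (by rw [← hm, hcuts, Finset.card_insert_of_notMem hnot]; omega)
        a' h3 rfl]
      ring
    · have h4 : cuts y a' b = ∅ := by
        ext z
        rw [mem_cuts]
        simp only [Finset.notMem_empty, iff_false]
        rintro ⟨-, h5, h6⟩
        rw [h3] at h5
        exact absurd h5 (not_le.2 h6)
      rw [h4, Finset.sum_empty, h3]
      ring

theorem main : S_GEOM := by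
  intro n y w a b hab
  refine ⟨tel y b _ a hab rfl, ?_⟩
  have hup : ∀ z ∈ cuts y a b, b ∈ upper y z := by
    intro z hz
    simpa [upper] using ((mem_cuts y a b z).1 hz).2.2
  have hlo : ∀ z ∈ cuts y a b, a ∈ lower y z := by
    intro z hz
    simpa [lower] using ((mem_cuts y a b z).1 hz).2.1
  set I : ℝ → Set ℝ := fun z => Ioo (mx (lower y z) w) (mn (upper y z) w - 1) with hI
  have key : ∀ z ∈ cuts y a b, ∀ c ∈ I z, ∀ i, (y i ≤ z → w i < c) ∧ (z < y i → c + 1 < w i) := by
    intro z hz c hc i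
    constructor
    · intro h
      exact lt_of_le_of_lt (mx_spec (lower y z) ⟨a, hlo z hz⟩ w i (by simpa [lower] using h)) hc.1
    · intro h
      have h1 := (mn_spec (upper y z) ⟨b, hup z hz⟩ w).1 i (by simpa [upper] using h)
      have h2 := hc.2
      linarith
  have hdis : (cuts y a b : Set ℝ).PairwiseDisjoint I := by
    have aux : ∀ z ∈ cuts y a b, ∀ z' ∈ cuts y a b, z < z' → ∀ c, c ∈ I z → c ∈ I z' → False := by
      intro z hz z' hz' hzz c h1 h2
      obtain ⟨i, hi⟩ := ((mem_cuts y a b z').1 hz').1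
      have h3 := (key z hz c h1 i).2 (by rw [hi]; exact hzz)
      have h4 := (key z' hz' c h2 i).1 hi.le
      linarith
    intro z hz z' hz' hne
    refine Set.disjoint_left.2 fun c h1 h2 => ?_
    rcases lt_or_gt_of_ne hne with h | h
    · exact aux z hz z' hz' h c h1 h2
    · exact aux z' hz' z hz h c h2 h1
  set E : Set ℝ := {c : ℝ | c ∈ Icc (y a) (y b) ∧ ∀ i, w i ∉ Icc c (c + 1)} with hE
  have hsub : (⋃ z ∈ cuts y a b, I z) ⊆ (E ∪ Ioo (w a) (y a)) ∪ Ioo (y b) (w b) := by
    intro c hc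
    simp only [Set.mem_iUnion] at hc
    obtain ⟨z, hz, hcz⟩ := hc
    have hk := key z hz c hcz
    by_cases h1 : c < y a
    · left; right
      exact ⟨(hk a).1 ((mem_cuts y a b z).1 hz).2.1, h1⟩
    · by_cases h2 : y b < c
      · right
        have h3 := (hk b).2 ((mem_cuts y a b z).1 hz).2.2
        exact ⟨h2, by linarith⟩
      · left; left
        refine ⟨⟨not_lt.1 h1, not_lt.1 h2⟩, fun i hi => ?_⟩
        by_cases h3 : y i ≤ z
        · exact absurd hi.1 (not_le.2 ((hk i).1 h3))
        · exact absurd hi.2 (not_le.2 ((hk i).2 (not_le.1 h3)))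
  have hEfin : volume E ≠ ⊤ := by
    refine ne_top_of_le_ne_top ?_ (measure_mono (fun c hc => hc.1 : E ⊆ Icc (y a) (y b)))
    exact isCompact_Icc.measure_lt_top.ne
  have h1 : volume.real (⋃ z ∈ cuts y a b, I z) = ∑ z ∈ cuts y a b, volume.real (I z) :=
    measureReal_biUnion_finset hdis (fun z _ => measurableSet_Ioo)
      (fun z _ => measure_Ioo_lt_top.ne)
  have h2 : volume.real (⋃ z ∈ cuts y a b, I z) ≤
      volume.real ((E ∪ Ioo (w a) (y a)) ∪ Ioo (y b) (w b)) :=
    measureReal_mono hsub (by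
      refine measure_union_ne_top ?_ measure_Ioo_lt_top.ne
      exact measure_union_ne_top hEfin measure_Ioo_lt_top.ne)
  have h3 := measureReal_union_le (μ := volume) (E ∪ Ioo (w a) (y a)) (Ioo (y b) (w b))
  have h4 := measureReal_union_le (μ := volume) E (Ioo (w a) (y a))
  rw [Real.volume_real_Ioo] at h3 h4
  have h5 : ∑ z ∈ cuts y a b, volume.real (I z) =
      ∑ z ∈ cuts y a b, max (mn (upper y z) w - mx (lower y z) w - 1) 0 := by
    refine Finset.sum_congr rfl fun z _ => ?_
    rw [hI, Real.volume_real_Ioo]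
    congr 1
    ring
  rw [← h5, ← h1]
  change _ ≤ volume.real E
  linarith

end Pool.Agent.W742.HW
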