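import Pool.Agent.W957.MF.Stm2

/-! Project MF, task MF-ES: Erdoes-Szekeres for alternations. -/

namespace Pool.Agent.W742.MF

open Finset Pool.Agent.W957.MF

theorem es (f : ℕ → ℤ) : ∀ (n p q : ℕ), p + q = n → ∀ s : Finset ℕ, Set.InjOn f (s : Set ℕ) →
    2 ^ (p + q) ≤ s.card →
    (∃ t ⊆ s, t.card = p ∧ ∀ i ∈ t, ∀ j ∈ t, i < j → f i < f j) ∨
    (∃ t ⊆ s, t.card = q ∧ ∀ i ∈ t, ∀ j ∈ t, i < j → f j < f i) := by
  intro n
  induction n with
  | zero =>
    intro p q hpq s _ _
    left
    exact ⟨∅, by simp, by simp; omega, by simp⟩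
  | succ n ih =>
    intro p q hpq s hs hc
    rcases p with _ | p
    · left
      exact ⟨∅, by simp, by simp, by simp⟩
    rcases q with _ | q
    · right
      exact ⟨∅, by simp, by simp, by simp⟩
    have hne : s.Nonempty := by
      rw [← Finset.card_pos]
      have : 0 < 2 ^ (p + 1 + (q + 1)) := by positivity
      omega
    set m := s.min' hne with hm
    have hms : m ∈ s := s.min'_mem hne
    set s1 := s.filter (fun x => f m < f x) with hs1
    set s2 := s.filter (fun x => f x < f m) with hs2
    have hcard : s.card ≤ s1.card + s2.card + 1 := by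
      have hsub : s ⊆ insert m (s1 ∪ s2) := by
        intro x hx
        rw [Finset.mem_insert, Finset.mem_union, hs1, hs2, Finset.mem_filter, Finset.mem_filter]
        rcases lt_trichotomy (f m) (f x) with h | h | h
        · exact Or.inr (Or.inl ⟨hx, h⟩)
        · exact Or.inl (hs hx hms h.symm)
        · exact Or.inr (Or.inr ⟨hx, h⟩)
      calc s.card ≤ (insert m (s1 ∪ s2)).card := Finset.card_le_card hsub
        _ ≤ (s1 ∪ s2).card + 1 := Finset.card_insert_le _ _
        _ ≤ s1.card + s2.card + 1 := by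
          have := Finset.card_union_le s1 s2
          omega
    have hmlt : ∀ x ∈ s, x ≠ m → m < x := fun x hx hxm =>
      lt_of_le_of_ne (s.min'_le x hx) (Ne.symm hxm)
    have hpow : 2 ^ (p + 1 + (q + 1)) = 2 * 2 ^ (p + q + 1) := by
      rw [← pow_succ']
      congr 1
      omega
    have hs1s : s1 ⊆ s := Finset.filter_subset _ _
    have hs2s : s2 ⊆ s := Finset.filter_subset _ _
    by_cases h1 : 2 ^ (p + q + 1) ≤ s1.card
    · rcases ih p (q + 1) (by omega) s1 (hs.mono (by exact_mod_cast hs1s))
        (by rw [← add_assoc]; exact h1) with ⟨t, ht, hct, hm1⟩ | ⟨t, ht, hct, hm1⟩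
      · left
        have hmt : m ∉ t := by
          intro h
          have := (Finset.mem_filter.1 (ht h)).2
          exact lt_irrefl _ this
        refine ⟨insert m t, ?_, ?_, ?_⟩
        · intro x hx
          rcases Finset.mem_insert.1 hx with h | h
          · rw [h]; exact hms
          · exact hs1s (ht h)
        · rw [Finset.card_insert_of_notMem hmt, hct]
        · intro i hi j hj hij
          rcases Finset.mem_insert.1 hi with h | h
          · rcases Finset.mem_insert.1 hj with h' | h'
            · omega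
            · rw [h]; exact (Finset.mem_filter.1 (ht h')).2
          · rcases Finset.mem_insert.1 hj with h' | h'
            · have h3 := s.min'_le i (hs1s (ht h))
              omega
            · exact hm1 i h j h' hij
      · right
        exact ⟨t, ht.trans hs1s, hct, hm1⟩
    · have h2 : 2 ^ (p + q + 1) ≤ s2.card := by omega
      rcases ih (p + 1) q (by omega) s2 (hs.mono (by exact_mod_cast hs2s))
        (by rw [show p + 1 + q = p + q + 1 by omega]; exact h2) with
        ⟨t, ht, hct, hm1⟩ | ⟨t, ht, hct, hm1⟩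
      · left
        exact ⟨t, ht.trans hs2s, hct, hm1⟩
      · right
        have hmt : m ∉ t := by
          intro h
          have := (Finset.mem_filter.1 (ht h)).2
          exact lt_irrefl _ this
        refine ⟨insert m t, ?_, ?_, ?_⟩
        · intro x hx
          rcases Finset.mem_insert.1 hx with h | h
          · rw [h]; exact hms
          · exact hs2s (ht h)
        · rw [Finset.card_insert_of_notMem hmt, hct]
        · intro i hi j hj hij
          rcases Finset.mem_insert.1 hi with h | h
          · rcases Finset.mem_insert.1 hj with h' | h'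
            · omega
            · rw [h]; exact (Finset.mem_filter.1 (ht h')).2
          · rcases Finset.mem_insert.1 hj with h' | h'
            · have h3 := s.min'_le i (hs2s (ht h))
              omega
            · exact hm1 i h j h' hij

theorem pick (A B : ℕ → ℤ) (T M : ℕ) (hM : 2 ^ (2 ^ (T + T) + 2 ^ (T + T)) ≤ M)
    (hA : Set.InjOn A (range M : Set ℕ)) (hB : Set.InjOn B (range M : Set ℕ)) :
    ∃ g : ℕ → ℕ, (∀ i j, i < j → j < T → g i < g j) ∧ (∀ i, i < T → g i < M) ∧
      ((∀ i j, i < j → j < T → A (g i) < A (g j)) ∨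
        (∀ i j, i < j → j < T → A (g j) < A (g i))) ∧
      ((∀ i j, i < j → j < T → B (g i) < B (g j)) ∨
        (∀ i j, i < j → j < T → B (g j) < B (g i))) := by
  obtain ⟨s1, hs1, hc1, hm1⟩ : ∃ s1 ⊆ range M, s1.card = 2 ^ (T + T) ∧
      ((∀ i ∈ s1, ∀ j ∈ s1, i < j → A i < A j) ∨
        (∀ i ∈ s1, ∀ j ∈ s1, i < j → A j < A i)) := by
    rcases es A _ (2 ^ (T + T)) (2 ^ (T + T)) rfl (range M) hA (by rwa [card_range]) with
      ⟨t, h1, h2, h3⟩ | ⟨t, h1, h2, h3⟩
    · exact ⟨t, h1, h2, Or.inl h3⟩
    · exact ⟨t, h1, h2, Or.inr h3⟩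
  obtain ⟨s2, hs2, hc2, hm2⟩ : ∃ s2 ⊆ s1, s2.card = T ∧
      ((∀ i ∈ s2, ∀ j ∈ s2, i < j → B i < B j) ∨
        (∀ i ∈ s2, ∀ j ∈ s2, i < j → B j < B i)) := by
    rcases es B _ T T rfl s1 (hB.mono (by exact_mod_cast hs1)) (by rw [hc1]) with
      ⟨t, h1, h2, h3⟩ | ⟨t, h1, h2, h3⟩
    · exact ⟨t, h1, h2, Or.inl h3⟩
    · exact ⟨t, h1, h2, Or.inr h3⟩
  obtain ⟨g, hg1, hg2⟩ : ∃ g : ℕ → ℕ, (∀ i j, i < j → j < T → g i < g j) ∧
      (∀ i, i < T → g i ∈ s2) := by
    refine ⟨fun i => if h : i < T then s2.orderEmbOfFin hc2 ⟨i, h⟩ else 0, ?_, ?_⟩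
    · intro i j hij hj
      simp only [dif_pos (lt_trans hij hj), dif_pos hj]
      exact (s2.orderEmbOfFin hc2).strictMono (by simpa using hij)
    · intro i hi
      simp only [dif_pos hi]
      exact Finset.orderEmbOfFin_mem _ _ _
  refine ⟨g, hg1, fun i hi => mem_range.1 (hs1 (hs2 (hg2 i hi))), ?_, ?_⟩
  · rcases hm1 with h | h
    · left
      intro i j hij hj
      exact h _ (hs2 (hg2 i (lt_trans hij hj))) _ (hs2 (hg2 j hj)) (hg1 i j hij hj)
    · right
      intro i j hij hj
      exact h _ (hs2 (hg2 i (lt_trans hij hj))) _ (hs2 (hg2 j hj)) (hg1 i j hij hj)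
  · rcases hm2 with h | h
    · left
      intro i j hij hj
      exact h _ (hg2 i (lt_trans hij hj)) _ (hg2 j hj) (hg1 i j hij hj)
    · right
      intro i j hij hj
      exact h _ (hg2 i (lt_trans hij hj)) _ (hg2 j hj) (hg1 i j hij hj)

theorem symm_not (a s1 s2 : Bool) (z : Conf) (n : ℕ) :
    symm a (!s1) s2 z true n = - symm a s1 s2 z true n ∧
      symm a (!s1) s2 z false n = symm a s1 s2 z false n := by
  constructor
  · cases s1 <;> simp [W957.MF.symm, sg]
  · simp [W957.MF.symm]

theorem symm_inj (a s1 s2 : Bool) (z : Conf) (S : Finset ℕ) (h : GP z S) (b : Bool) :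
    Set.InjOn (symm a s1 s2 z b) (S : Set ℕ) := by
  intro x hx y hy hxy
  cases b
  · apply h (!a) hx hy
    cases s2 <;> simpa [W957.MF.symm, sg] using hxy
  · apply h a hx hy
    cases s1 <;> simpa [W957.MF.symm, sg] using hxy

theorem t_ES : S_ES := by
  intro t
  refine ⟨2 ^ (2 ^ (t + 1 + (t + 1)) + 2 ^ (t + 1 + (t + 1))), ?_⟩
  intro z S hGP a s1 s2 ⟨u, w, hw, huS, hx, hxw, hup, hlow⟩
  set M := 2 ^ (2 ^ (t + 1 + (t + 1)) + 2 ^ (t + 1 + (t + 1))) with hM
  set Z := symm a s1 s2 z with hZ
  have hinj : ∀ i j, i < 2 * M → j < 2 * M → Z false (u i) = Z false (u j) → i = j := by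
    intro i j hi hj hij
    have h1 := symm_inj a s1 s2 z S hGP false (huS i hi) (huS j hj) hij
    rcases lt_trichotomy i j with h | h | h
    · have := hx i j h hj
      rw [h1] at this
      omega
    · exact h
    · have := hx j i h hi
      rw [h1] at this
      omega
  obtain ⟨g, hg1, hg2, hA, hB⟩ := pick (fun i => Z false (u (2 * i)))
    (fun i => Z false (u (2 * i + 1))) (t + 1) M le_rfl
    (by
      intro i hi j hj hij
      have hi' := mem_range.1 (Finset.mem_coe.1 hi)
      have hj' := mem_range.1 (Finset.mem_coe.1 hj)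
      have := hinj (2 * i) (2 * j) (by omega) (by omega) hij
      omega)
    (by
      intro i hi j hj hij
      have hi' := mem_range.1 (Finset.mem_coe.1 hi)
      have hj' := mem_range.1 (Finset.mem_coe.1 hj)
      have := hinj (2 * i + 1) (2 * j + 1) (by omega) (by omega) hij
      omega)
  -- the order facts
  have hUS : ∀ i, i < t + 1 → u (2 * g i) ∈ S := fun i hi => huS _ (by have := hg2 i hi; omega)
  have hLS : ∀ i, i < t + 1 → u (2 * g i + 1) ∈ S := fun i hi =>
    huS _ (by have := hg2 i hi; omega)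
  have hUU : ∀ i j, i < j → j < t + 1 → Z true (u (2 * g i)) < Z true (u (2 * g j)) :=
    fun i j hij hj => hx _ _ (by have := hg1 i j hij hj; omega) (by have := hg2 j hj; omega)
  have hLL : ∀ i j, i < j → j < t + 1 → Z true (u (2 * g i + 1)) < Z true (u (2 * g j + 1)) :=
    fun i j hij hj => hx _ _ (by have := hg1 i j hij hj; omega) (by have := hg2 j hj; omega)
  have hLU : ∀ i j, i < j → j < t + 1 → Z true (u (2 * g i + 1)) < Z true (u (2 * g j)) :=
    fun i j hij hj => hx _ _ (by have := hg1 i j hij hj; omega) (by have := hg2 j hj; omega)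
  have hUL : ∀ i j, i ≤ j → j < t + 1 → Z true (u (2 * g i)) < Z true (u (2 * g j + 1)) := by
    intro i j hij hj
    rcases hij.lt_or_eq with h | h
    · exact hx _ _ (by have := hg1 i j h hj; omega) (by have := hg2 j hj; omega)
    · subst h
      exact hx _ _ (by omega) (by have := hg2 i hj; omega)
  have hUw : ∀ i, i < t + 1 → Z true (u (2 * g i)) < Z true w := fun i hi =>
    hxw _ (by have := hg2 i hi; omega)
  have hLw : ∀ i, i < t + 1 → Z true (u (2 * g i + 1)) < Z true w := fun i hi =>
    hxw _ (by have := hg2 i hi; omega)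
  have hwU : ∀ i, i < t + 1 → Z false w < Z false (u (2 * g i)) := fun i hi =>
    hup _ (by have := hg2 i hi; omega) (by omega)
  have hwL : ∀ i, i < t + 1 → Z false (u (2 * g i + 1)) < Z false w := fun i hi =>
    hlow _ (by have := hg2 i hi; omega) (by omega)
  set U : ℕ → ℕ := fun i => u (2 * g i) with hU
  set L : ℕ → ℕ := fun i => u (2 * g i + 1) with hL
  change (∀ i j, i < j → j < t + 1 → Z false (U i) < Z false (U j)) ∨
    (∀ i j, i < j → j < t + 1 → Z false (U j) < Z false (U i)) at hA
  change (∀ i j, i < j → j < t + 1 → Z false (L i) < Z false (L j)) ∨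
    (∀ i j, i < j → j < t + 1 → Z false (L j) < Z false (L i)) at hB
  -- forward and backward sequences
  set v : ℕ → ℕ := fun i => if i = 0 ∨ 2 * t < i then w else
    (if i % 2 = 1 then U ((i - 1) / 2) else L ((i - 1) / 2)) with hv
  set r : ℕ → ℕ := fun i => if i = 0 ∨ 2 * t < i then w else
    (if i % 2 = 1 then U (t - (i - 1) / 2) else L (t - 1 - (i - 1) / 2)) with hr
  have hvo : ∀ i, 1 ≤ i → i ≤ 2 * t → i % 2 = 1 → v i = U ((i - 1) / 2) := by
    intro i h1 h2 h3
    simp only [hv]
    rw [if_neg (by omega), if_pos h3]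
  have hve : ∀ i, 1 ≤ i → i ≤ 2 * t → i % 2 = 0 → v i = L ((i - 1) / 2) := by
    intro i h1 h2 h3
    simp only [hv]
    rw [if_neg (by omega), if_neg (by omega)]
  have hro : ∀ i, 1 ≤ i → i ≤ 2 * t → i % 2 = 1 → r i = U (t - (i - 1) / 2) := by
    intro i h1 h2 h3
    simp only [hr]
    rw [if_neg (by omega), if_pos h3]
  have hre : ∀ i, 1 ≤ i → i ≤ 2 * t → i % 2 = 0 → r i = L (t - 1 - (i - 1) / 2) := by
    intro i h1 h2 h3
    simp only [hr]
    rw [if_neg (by omega), if_neg (by omega)]
  have hr0 : r 0 = w := by simp [hr]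
  have hvS : ∀ i, v i ∈ S := by
    intro i
    simp only [hv]
    split_ifs with h1 h2
    · exact hw
    · exact hUS _ (by omega)
    · exact hLS _ (by omega)
  have hrS : ∀ i, r i ∈ S := by
    intro i
    simp only [hr]
    split_ifs with h1 h2
    · exact hw
    · exact hUS _ (by omega)
    · exact hLS _ (by omega)
  have hvx : ∀ i j, 1 ≤ i → i < j → j ≤ 2 * t → Z true (v i) < Z true (v j) := by
    intro i j h1 h2 h3
    rcases Nat.mod_two_eq_zero_or_one i with hi | hi <;>
      rcases Nat.mod_two_eq_zero_or_one j with hj | hj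
    · rw [hve i h1 (by omega) hi, hve j (by omega) h3 hj]
      exact hLL _ _ (by omega) (by omega)
    · rw [hve i h1 (by omega) hi, hvo j (by omega) h3 hj]
      exact hLU _ _ (by omega) (by omega)
    · rw [hvo i h1 (by omega) hi, hve j (by omega) h3 hj]
      exact hUL _ _ (by omega) (by omega)
    · rw [hvo i h1 (by omega) hi, hvo j (by omega) h3 hj]
      exact hUU _ _ (by omega) (by omega)
  have hrx : ∀ i j, 1 ≤ i → i < j → j ≤ 2 * t → Z true (r j) < Z true (r i) := by
    intro i j h1 h2 h3
    rcases Nat.mod_two_eq_zero_or_one i with hi | hi <;>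
      rcases Nat.mod_two_eq_zero_or_one j with hj | hj
    · rw [hre i h1 (by omega) hi, hre j (by omega) h3 hj]
      exact hLL _ _ (by omega) (by omega)
    · rw [hre i h1 (by omega) hi, hro j (by omega) h3 hj]
      exact hUL _ _ (by omega) (by omega)
    · rw [hro i h1 (by omega) hi, hre j (by omega) h3 hj]
      exact hLU _ _ (by omega) (by omega)
    · rw [hro i h1 (by omega) hi, hro j (by omega) h3 hj]
      exact hUU _ _ (by omega) (by omega)
  have hrw : ∀ i, 1 ≤ i → i ≤ 2 * t → Z true (r i) < Z true w := by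
    intro i h1 h2
    rcases Nat.mod_two_eq_zero_or_one i with hi | hi
    · rw [hre i h1 h2 hi]
      exact hLw _ (by omega)
    · rw [hro i h1 h2 hi]
      exact hUw _ (by omega)
  rcases hA with hA | hA <;> rcases hB with hB | hB
  · -- both increasing
    left
    refine ⟨a, s1, s2, v, fun i _ => hvS i, ?_, ?_, ?_⟩
    · intro i j h1 h2 h3
      exact hvx i j h1 h2 h3
    · intro i j h1 h2 h3 h4
      change Z false (v i) < Z false (v j)
      rcases Nat.mod_two_eq_zero_or_one i with hi | hi
      · rw [hve i h1 (by omega) hi, hve j (by omega) h3 (by omega)]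
        exact hB _ _ (by omega) (by omega)
      · rw [hvo i h1 (by omega) hi, hvo j (by omega) h3 (by omega)]
        exact hA _ _ (by omega) (by omega)
    · intro i j h1 h2 h3 h4 h5 h6
      change Z false (v j) < Z false (v i)
      rw [hvo i h1 h2 h5, hve j h3 h4 h6]
      exact lt_trans (hwL _ (by omega)) (hwU _ (by omega))
  · -- upper increasing, lower decreasing: the wedge opens to the right
    right; left
    refine ⟨a, !s1, s2, r, fun i _ => hrS i, ?_, ?_, ?_, ?_, ?_⟩
    · intro i j h2 h3
      change symm a (!s1) s2 z true (r i) < symm a (!s1) s2 z true (r j)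
      rw [(symm_not a s1 s2 z _).1, (symm_not a s1 s2 z _).1, neg_lt_neg_iff]
      rcases Nat.eq_zero_or_pos i with h | h
      · rw [h, hr0]
        exact hrw j (by omega) h3
      · exact hrx i j h h2 h3
    · intro i j h1 h2 h3 h4 h5
      change symm a (!s1) s2 z false (r j) < symm a (!s1) s2 z false (r i)
      rw [(symm_not a s1 s2 z _).2, (symm_not a s1 s2 z _).2, hro i h1 (by omega) h4,
        hro j (by omega) h3 h5]
      exact hA _ _ (by omega) (by omega)
    · intro i j h1 h2 h3 h4 h5
      change symm a (!s1) s2 z false (r i) < symm a (!s1) s2 z false (r j)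
      rw [(symm_not a s1 s2 z _).2, (symm_not a s1 s2 z _).2, hre i h1 (by omega) h4,
        hre j (by omega) h3 h5]
      exact hB _ _ (by omega) (by omega)
    · intro i h1 h2 h3
      change symm a (!s1) s2 z false (r 0) < symm a (!s1) s2 z false (r i)
      rw [(symm_not a s1 s2 z _).2, (symm_not a s1 s2 z _).2, hro i h1 h2 h3, hr0]
      exact hwU _ (by omega)
    · intro i h1 h2 h3
      change symm a (!s1) s2 z false (r i) < symm a (!s1) s2 z false (r 0)
      rw [(symm_not a s1 s2 z _).2, (symm_not a s1 s2 z _).2, hre i h1 h2 h3, hr0]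
      exact hwL _ (by omega)
  · -- the tip
    right; right
    refine ⟨a, s1, s2, fun i => v (i + 1), fun i _ => hvS _, ?_, ?_, ?_, ?_⟩
    · intro i j h1 h2
      exact hvx _ _ (by omega) (by omega) (by omega)
    · intro i j h1 h2 h3 h4
      change Z false (v (j + 1)) < Z false (v (i + 1))
      rw [hvo (i + 1) (by omega) (by omega) (by omega), hvo (j + 1) (by omega) (by omega) (by omega)]
      exact hA _ _ (by omega) (by omega)
    · intro i j h1 h2 h3 h4
      change Z false (v (i + 1)) < Z false (v (j + 1))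
      rw [hve (i + 1) (by omega) (by omega) (by omega), hve (j + 1) (by omega) (by omega) (by omega)]
      exact hB _ _ (by omega) (by omega)
    · intro i j h1 h2 h3 h4
      change Z false (v (j + 1)) < Z false (v (i + 1))
      rw [hvo (i + 1) (by omega) (by omega) (by omega), hve (j + 1) (by omega) (by omega) (by omega)]
      exact lt_trans (hwL _ (by omega)) (hwU _ (by omega))
  · -- both decreasing
    left
    refine ⟨a, !s1, s2, r, fun i _ => hrS i, ?_, ?_, ?_⟩
    · intro i j h1 h2 h3
      change symm a (!s1) s2 z true (r i) < symm a (!s1) s2 z true (r j)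
      rw [(symm_not a s1 s2 z _).1, (symm_not a s1 s2 z _).1, neg_lt_neg_iff]
      exact hrx i j h1 h2 h3
    · intro i j h1 h2 h3 h4
      change symm a (!s1) s2 z false (r i) < symm a (!s1) s2 z false (r j)
      rw [(symm_not a s1 s2 z _).2, (symm_not a s1 s2 z _).2]
      rcases Nat.mod_two_eq_zero_or_one i with hi | hi
      · rw [hre i h1 (by omega) hi, hre j (by omega) h3 (by omega)]
        exact hB _ _ (by omega) (by omega)
      · rw [hro i h1 (by omega) hi, hro j (by omega) h3 (by omega)]
        exact hA _ _ (by omega) (by omega)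
    · intro i j h1 h2 h3 h4 h5 h6
      change symm a (!s1) s2 z false (r j) < symm a (!s1) s2 z false (r i)
      rw [(symm_not a s1 s2 z _).2, (symm_not a s1 s2 z _).2, hro i h1 h2 h5, hre j h3 h4 h6]
      exact lt_trans (hwL _ (by omega)) (hwU _ (by omega))

end Pool.Agent.W742.MF
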