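import Pool.Agent.W921.RF.Defs

set_option autoImplicit false

/-!
Project RF, task RF-RFI: the group is residually finite.
-/

namespace Pool.Agent.W742.RF

open Pool.Agent.W921.RF

theorem Zf_map {C D : Type} [AddCommGroup C] [AddCommGroup D] (φ : C →+ D) (ρ : ℤ → C)
    (l : List (ℤ × ℤ)) : φ (Zf ρ l) = Zf (fun i => φ (ρ i)) l := by
  induction l with
  | nil => simp [Zf]
  | cons o l ih =>
    simp only [Zf, map_add, ih, map_list_sum, List.map_map]
    congr 2
    apply List.map_congr_left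
    intro o' _
    simp

theorem rho_zero (κ : ℕ → ℕ) : rho κ 0 = 0 := by simp [rho]

theorem prin {G P : Type} [Group G] [Group P] [Finite P] (F : Type) [Group F]
    (R : F →* G) (r : F →* P) (hA : ∀ x, R x = 1 → r x = 1) (x : F) (hx : r x ≠ 1)
    (g : R.range) (hg : R x = g) :
    ∃ H : Subgroup R.range, H.index ≠ 0 ∧ g ∉ H := by
  refine ⟨r.ker.map R.rangeRestrict, ?_, ?_⟩
  · have h1 : (r.ker.map R.rangeRestrict).index ∣ r.ker.index :=
      Subgroup.index_map_dvd _ R.rangeRestrict_surjective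
    have h2 : r.ker.index ≠ 0 := by
      rw [Subgroup.index_ker]
      exact Nat.card_pos.ne'
    intro h0
    rw [h0] at h1
    exact h2 (Nat.eq_zero_of_zero_dvd h1)
  · rintro ⟨k, hk, hkg⟩
    apply hx
    have hk' : r k = 1 := hk
    have h3 : R k = R x := by
      rw [hg, ← hkg]
      rfl
    have h4 : R (k⁻¹ * x) = 1 := by rw [map_mul, map_inv, h3, inv_mul_cancel]
    have h5 := hA _ h4
    rwa [map_mul, map_inv, hk', inv_one, one_mul] at h5

theorem trans (h2 : S_TRI) (κ : ℕ → ℕ) (n m : ℕ)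
    (φ : (ℕ →₀ ℤ) →+ ZMod m) (ρ' : ZMod n → ZMod m) (h0 : ρ' 0 = 0)
    (hρ : ∀ i : ℤ, φ (rho κ i) = ρ' (i : ZMod n)) (x : FreeGroup (Fin 2))
    (hx : rep (1 : ℤ) (rho κ) x = 1) : rep (1 : ZMod n) ρ' x = 1 := by
  obtain ⟨w, rfl⟩ : ∃ w : List Lt, x = FreeGroup.mk w := ⟨x.toWord, FreeGroup.mk_toWord.symm⟩
  obtain ⟨ht, hP, hZ⟩ := h2.1 (rho κ) (rho_zero κ) w hx
  refine h2.2 (ZMod n) (ZMod m) 1 ρ' h0 w ht hP ?_
  have e : (fun i : ℤ => ρ' (i • (1 : ZMod n))) = fun i => φ (rho κ i) := by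
    funext i
    rw [hρ i, zsmul_one]
  rw [e, ← Zf_map, hZ, map_zero]

theorem rfi (h1 : S_EV) (h2 : S_TRI) (h3 : S_COO) (h4 : S_PHI) : S_RFI := by
  intro κ g hg
  obtain ⟨x, hx⟩ := g.2
  obtain ⟨w, rfl⟩ : ∃ w : List Lt, x = FreeGroup.mk w := ⟨x.toWord, FreeGroup.mk_toWord.symm⟩
  have hx1 : rep (1 : ℤ) (rho κ) (FreeGroup.mk w) ≠ 1 := by
    intro h
    apply hg
    apply Subtype.ext
    rw [← hx, h]
    rfl
  by_cases ht : tot w = 0
  · by_cases hP : ∀ i, Pf (occ 0 w) i = 0
    · -- the central part is nontrivial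
      set z := Zf (rho κ) (occ 0 w) with hz
      have hz0 : z ≠ 0 := by
        intro h0
        apply hx1
        refine h2.2 ℤ (ℕ →₀ ℤ) 1 (rho κ) (rho_zero κ) w ht hP ?_
        have e : (fun i : ℤ => rho κ (i • (1 : ℤ))) = rho κ := by
          funext i
          simp
        rw [e, ← hz, h0]
      obtain ⟨c1, c2, -⟩ := h3 κ (occ 0 w)
      obtain ⟨n, m, hn, hm, φ, ρ', hφ, h0, hρ⟩ := h4 κ z hz0 c2 c1
      have : NeZero n := ⟨hn.ne'⟩
      have : NeZero m := ⟨hm.ne'⟩
      refine prin (FreeGroup (Fin 2)) (rep (1 : ℤ) (rho κ)) (rep (1 : ZMod n) ρ')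
        (trans h2 κ n m φ ρ' h0 hρ) (FreeGroup.mk w) ?_ g hx
      intro hr
      have e1 := h1 (ZMod n) (ZMod m) 1 ρ' h0 w 0 0
      rw [hr] at e1
      have e2 := congrArg Prod.snd e1
      have e : (fun i : ℤ => ρ' (i • (1 : ZMod n))) = fun i => φ (rho κ i) := by
        funext i
        rw [hρ i, zsmul_one]
      simp only [Equiv.Perm.coe_one, id_eq, Pi.zero_apply, smul_zero, zero_add] at e2
      rw [e, ← Zf_map, ← hz] at e2
      apply hφ
      rw [e2]
      simp
    · push Not at hP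
      obtain ⟨i0, hi0⟩ := hP
      set l := occ 0 w with hl
      set n : ℕ := (l.map fun o => (o.1 - i0).natAbs).sum + 1 with hn
      set m : ℕ := (Pf l i0).natAbs + 1 with hm
      have hρ : ∀ i : ℤ, (0 : (ℕ →₀ ℤ) →+ ZMod m) (rho κ i) = (0 : ZMod n → ZMod m) (i : ZMod n) := by
        intro i
        rfl
      have : NeZero n := ⟨by omega⟩
      have : NeZero m := ⟨by omega⟩
      refine prin (FreeGroup (Fin 2)) (rep (1 : ℤ) (rho κ)) (rep (1 : ZMod n) (0 : ZMod n → ZMod m))
        (trans h2 κ n m 0 0 rfl hρ) (FreeGroup.mk w) ?_ g hx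
      intro hr
      have e1 := h1 (ZMod n) (ZMod m) 1 0 rfl w (fun a => if a = (i0 : ZMod n) then 1 else 0) 0
      rw [hr] at e1
      have e2 := congrArg Prod.snd e1
      have e3 : Zf (fun i : ℤ => (0 : ZMod n → ZMod m) (i • (1 : ZMod n))) (occ 0 w) = 0 := by
        have := Zf_map (0 : ℤ →+ ZMod m) (fun _ => 0) (occ 0 w)
        simpa using this.symm
      simp only [Equiv.Perm.coe_one, id_eq] at e2
      rw [e3, ht] at e2
      have key : ∀ o ∈ l, (((o.1 : ZMod n) = (i0 : ZMod n)) ↔ o.1 = i0) := by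
        intro o ho
        constructor
        · intro h
          have h5 : ((o.1 - i0 : ℤ) : ZMod n) = 0 := by
            push_cast
            rw [h, sub_self]
          rw [ZMod.intCast_zmod_eq_zero_iff_dvd] at h5
          have h6 : (o.1 - i0).natAbs ≤ (l.map fun o => (o.1 - i0).natAbs).sum :=
            List.single_le_sum (by simp) _ (List.mem_map.2 ⟨o, ho, rfl⟩)
          have h7 : (n : ℤ) ∣ o.1 - i0 := h5
          have h8 : n ∣ (o.1 - i0).natAbs := Int.natCast_dvd.1 h7
          have h9 : (o.1 - i0).natAbs = 0 := by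
            apply Nat.eq_zero_of_dvd_of_lt h8
            omega
          omega
        · intro h
          rw [h]
      have e4 : (List.map (fun o : ℤ × ℤ => o.2 • (if ((o.1 - 0) • (1 : ZMod n)) = (i0 : ZMod n) then (1 : ZMod m) else 0)) l).sum
          = ((Pf l i0 : ℤ) : ZMod m) := by
        unfold Pf
        rw [Int.cast_list_sum, List.map_map]
        congr 1
        apply List.map_congr_left
        intro o ho
        simp only [sub_zero, zsmul_one, Function.comp_apply, key o ho]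
        split_ifs <;> simp
      rw [← hl] at e2
      rw [e4] at e2
      have e5 : ((Pf l i0 : ℤ) : ZMod m) = 0 := by
        simpa using e2.symm
      rw [ZMod.intCast_zmod_eq_zero_iff_dvd] at e5
      have h8 : m ∣ (Pf l i0).natAbs := Int.natCast_dvd.1 e5
      have h9 : (Pf l i0).natAbs = 0 := by
        apply Nat.eq_zero_of_dvd_of_lt h8
        omega
      apply hi0
      omega
  · set n : ℕ := (tot w).natAbs + 1 with hn
    have hρ : ∀ i : ℤ, (0 : (ℕ →₀ ℤ) →+ ZMod 2) (rho κ i) = (0 : ZMod n → ZMod 2) (i : ZMod n) := by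
      intro i
      rfl
    have : NeZero n := ⟨by omega⟩
    refine prin (FreeGroup (Fin 2)) (rep (1 : ℤ) (rho κ)) (rep (1 : ZMod n) (0 : ZMod n → ZMod 2))
      (trans h2 κ n 2 0 0 rfl hρ) (FreeGroup.mk w) ?_ g hx
    intro hr
    have e1 := h1 (ZMod n) (ZMod 2) 1 0 rfl w (fun a => if a = 0 then 1 else 0) 0
    rw [hr] at e1
    have e2 := congrFun (congrArg Prod.fst e1) 0
    simp only [Equiv.Perm.coe_one, id_eq, if_true, Pi.zero_apply, smul_zero] at e2
    by_cases h5 : ((tot w : ℤ) : ZMod n) = 0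
    · rw [ZMod.intCast_zmod_eq_zero_iff_dvd] at h5
      have h8 : n ∣ (tot w).natAbs := Int.natCast_dvd.1 h5
      have h9 : (tot w).natAbs = 0 := by
        apply Nat.eq_zero_of_dvd_of_lt h8
        omega
      apply ht
      omega
    · have h6 : ¬ ((0 : ZMod n) - tot w • (1 : ZMod n) = 0) := by
        rw [zsmul_one, zero_sub, neg_eq_zero]
        exact h5
      rw [if_neg h6] at e2
      have e7 : (List.map (fun _ : ℤ × ℤ => (0 : ZMod 2)) (occ 0 w)).sum = 0 := by
        simp
      rw [e7] at e2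
      simp at e2

end Pool.Agent.W742.RF

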